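import Pool.Agent.Helper15.FC.St2

set_option autoImplicit false

/-!
# Project FC, module COE: divisor sums are coefficients of powers of the L-polynomial
-/

open Polynomial

namespace Pool.Agent.Helper81.FC

open Pool.Agent.Helper15.FC

theorem Lp_coeff {F : Type} [Field F] [Fintype F] (Χ : F[X] → ℂ) (D : ℕ)
    (h0 : ∀ d : ℕ, D ≤ d → Asum Χ d = 0) (j : ℕ) : (Lp Χ D).coeff j = Asum Χ j := by
  unfold Lp
  rw [Polynomial.finset_sum_coeff]
  by_cases hj : j < D
  · rw [Finset.sum_eq_single j]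
    · rw [Polynomial.coeff_C_mul_X_pow, if_pos rfl]
    · intro b _ hb
      rw [Polynomial.coeff_C_mul_X_pow, if_neg (fun h => hb h.symm)]
    · intro h
      exact absurd (Finset.mem_range.2 hj) h
  · rw [h0 j (not_lt.1 hj)]
    refine Finset.sum_eq_zero fun b hb => ?_
    rw [Polynomial.coeff_C_mul_X_pow, if_neg]
    intro h
    have := Finset.mem_range.1 hb
    omega

theorem monic_div {F : Type} [Field F] {f g : F[X]} (hf : f.Monic) (hg : g.Monic)
    (hd : g ∣ f) : (f / g).Monic ∧ g * (f / g) = f := by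
  have h1 : g * (f / g) = f := EuclideanDomain.mul_div_cancel' hg.ne_zero hd
  refine ⟨?_, h1⟩
  have h2 : (g * (f / g)).Monic := by rw [h1]; exact hf
  exact hg.of_mul_monic_left h2

theorem hCOE (hDKR : StDKR) (hCNV : StCNV) : StCOE := by
  intro F _ _ Χ D hΧ h0 k
  obtain ⟨⟨hd1, hd0⟩, hrec, -, -⟩ := hDKR F
  obtain ⟨hΧ1, hmul, -⟩ := hΧ
  induction k with
  | zero =>
    intro i
    rw [pow_zero, Polynomial.coeff_one]
    by_cases hi : i = 0
    · subst hi
      rw [if_pos rfl, Finset.sum_eq_single (1 : F[X])]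
      · rw [hd1, hΧ1]; norm_num
      · intro b hb hb1
        rw [hd0 b (mem_Mn.1 hb).1 hb1]
        push_cast
        ring
      · intro h
        exact absurd (mem_Mn.2 ⟨Polynomial.monic_one, Polynomial.natDegree_one⟩) h
    · rw [if_neg hi]
      refine Finset.sum_eq_zero fun b hb => ?_
      have hb' := mem_Mn.1 hb
      have hb1 : b ≠ 1 := by
        rintro rfl
        rw [Polynomial.natDegree_one] at hb'
        exact hi hb'.2.symm
      rw [hd0 b hb'.1 hb1]
      push_cast
      ring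
  | succ k ih =>
    intro i
    have hstep : ∑ f ∈ Mn F i, (dk (k + 1) f : ℂ) * Χ f =
        ∑ f ∈ Mn F i, ∑ g ∈ Dv f, Χ g * ((dk k (f / g) : ℂ) * Χ (f / g)) := by
      refine Finset.sum_congr rfl fun f hf => ?_
      have hfm := (mem_Mn.1 hf).1
      rw [hrec k f hfm]
      push_cast
      rw [Finset.sum_mul]
      refine Finset.sum_congr rfl fun g hg => ?_
      obtain ⟨hgm, hgd⟩ := (mem_Dv hfm.ne_zero).1 hg
      obtain ⟨h1, h2⟩ := monic_div hfm hgm hgd
      have h3 : Χ f = Χ g * Χ (f / g) := by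
        rw [← hmul g (f / g) hgm h1, h2]
      rw [h3]
      ring
    rw [hstep, hCNV F Χ (fun h => (dk k h : ℂ) * Χ h) i, pow_succ, mul_comm,
      Polynomial.coeff_mul, Finset.Nat.sum_antidiagonal_eq_sum_range_succ_mk]
    refine Finset.sum_congr rfl fun j hj => ?_
    rw [Lp_coeff Χ D h0 j, ← ih (i - j)]
    unfold Asum
    rw [Finset.sum_mul_sum]

end Pool.Agent.Helper81.FC
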