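import Pool.Agent.Helper15.FC.St5

set_option autoImplicit false

/-!
# Project FC, module PHM: Euler's function of polynomials
-/

open Polynomial

namespace Pool.Agent.Helper81.FC

open Pool.Agent.Helper15.FC

theorem cop_mod {F : Type} [Field F] {r : F[X]} (hr : r.Monic) (x : F[X]) :
    IsCoprime (x %ₘ r) r ↔ IsCoprime x r := by
  have h := Polynomial.modByMonic_add_div x r
  conv_rhs => rw [← h]
  exact (IsCoprime.add_mul_left_left_iff).symm

theorem mod_mem_Lw {F : Type} [Field F] [Fintype F] {r : F[X]} (hr : r.Monic) (x : F[X]) :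
    x %ₘ r ∈ Lw F r.natDegree := by
  rw [mem_Lw]
  have h := Polynomial.degree_modByMonic_lt x hr
  rwa [Polynomial.degree_eq_natDegree hr.ne_zero] at h

theorem dvd_sub_mod {F : Type} [Field F] (r : F[X]) (x : F[X]) :
    r ∣ x - x %ₘ r := by
  have h := Polynomial.modByMonic_add_div x r
  exact ⟨x /ₘ r, by linear_combination -h⟩

theorem mod_eq_of_dvd_sub {F : Type} [Field F] [Fintype F] {r : F[X]} (hr : r.Monic)
    {x y : F[X]} (hy : y ∈ Lw F r.natDegree) (h : r ∣ x - y) : x %ₘ r = y := by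
  obtain ⟨c, hc⟩ := h
  have hy' : y.degree < r.degree := by
    rw [Polynomial.degree_eq_natDegree hr.ne_zero]
    exact mem_Lw.1 hy
  have h3 : y + r * c = x := by linear_combination -hc
  exact (Polynomial.div_modByMonic_unique (f := x) c y hr ⟨h3, hy'⟩).2

theorem eq_of_mem_Lw {F : Type} [Field F] [Fintype F] {r : F[X]} (hr : r.Monic)
    {x y : F[X]} (hx : x ∈ Lw F r.natDegree) (hy : y ∈ Lw F r.natDegree) (h : r ∣ x - y) :
    x = y := by
  rw [← mod_eq_of_dvd_sub hr hy h]
  symm
  exact mod_eq_of_dvd_sub hr hx (by simp)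

theorem phi_mul_cop {F : Type} [Field F] [Fintype F] (r s : F[X]) (hr : r.Monic)
    (hs : s.Monic) (hrs : IsCoprime r s) : phi (r * s) = phi r * phi s := by
  classical
  have hm : (r * s).Monic := hr.mul hs
  unfold phi
  rw [← Finset.card_product]
  refine Finset.card_bij (fun x _ => (x %ₘ r, x %ₘ s)) ?_ ?_ ?_
  · intro x hx
    have hx2 := (Finset.mem_filter.1 hx).2
    rw [IsCoprime.mul_right_iff] at hx2
    rw [Finset.mem_product, Finset.mem_filter, Finset.mem_filter]
    exact ⟨⟨mod_mem_Lw hr x, (cop_mod hr x).2 hx2.1⟩, ⟨mod_mem_Lw hs x, (cop_mod hs x).2 hx2.2⟩⟩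
  · intro x hx y hy hxy
    have h1 : x %ₘ r = y %ₘ r := congrArg Prod.fst hxy
    have h2 : x %ₘ s = y %ₘ s := congrArg Prod.snd hxy
    refine eq_of_mem_Lw hm (Finset.mem_filter.1 hx).1 (Finset.mem_filter.1 hy).1 ?_
    refine hrs.mul_dvd ?_ ?_
    · have h3 := dvd_sub_mod r x
      have h4 := dvd_sub_mod r y
      have h5 := dvd_sub h3 h4
      rw [h1] at h5
      have h6 : x - y %ₘ r - (y - y %ₘ r) = x - y := by ring
      rwa [h6] at h5
    · have h3 := dvd_sub_mod s x
      have h4 := dvd_sub_mod s y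
      have h5 := dvd_sub h3 h4
      rw [h2] at h5
      have h6 : x - y %ₘ s - (y - y %ₘ s) = x - y := by ring
      rwa [h6] at h5
  · rintro ⟨y, z⟩ hyz
    rw [Finset.mem_product, Finset.mem_filter, Finset.mem_filter] at hyz
    obtain ⟨⟨hy1, hy2⟩, hz1, hz2⟩ := hyz
    obtain ⟨a, b, hab⟩ := hrs
    have e1 : (y * (b * s) + z * (a * r)) - y = r * (a * (z - y)) := by
      linear_combination (y * hab)
    have e2 : (y * (b * s) + z * (a * r)) - z = s * (b * (y - z)) := by
      linear_combination (z * hab)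
    have d1 : r ∣ (y * (b * s) + z * (a * r)) %ₘ (r * s) - y := by
      have h3 := (dvd_mul_right r s).trans (dvd_sub_mod (r * s) (y * (b * s) + z * (a * r)))
      have h4 : r ∣ (y * (b * s) + z * (a * r)) - y := ⟨_, e1⟩
      have h5 := dvd_sub h4 h3
      have h6 : (y * (b * s) + z * (a * r)) - y -
          ((y * (b * s) + z * (a * r)) - (y * (b * s) + z * (a * r)) %ₘ (r * s)) =
          (y * (b * s) + z * (a * r)) %ₘ (r * s) - y := by ring
      rwa [h6] at h5
    have d2 : s ∣ (y * (b * s) + z * (a * r)) %ₘ (r * s) - z := by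
      have h3 := (dvd_mul_left s r).trans (dvd_sub_mod (r * s) (y * (b * s) + z * (a * r)))
      have h4 : s ∣ (y * (b * s) + z * (a * r)) - z := ⟨_, e2⟩
      have h5 := dvd_sub h4 h3
      have h6 : (y * (b * s) + z * (a * r)) - z -
          ((y * (b * s) + z * (a * r)) - (y * (b * s) + z * (a * r)) %ₘ (r * s)) =
          (y * (b * s) + z * (a * r)) %ₘ (r * s) - z := by ring
      rwa [h6] at h5
    have m1 := mod_eq_of_dvd_sub hr hy1 d1
    have m2 := mod_eq_of_dvd_sub hs hz1 d2
    refine ⟨(y * (b * s) + z * (a * r)) %ₘ (r * s), ?_, ?_⟩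
    · rw [Finset.mem_filter, IsCoprime.mul_right_iff]
      refine ⟨mod_mem_Lw hm _, ?_, ?_⟩
      · rw [← cop_mod hr, m1]
        exact hy2
      · rw [← cop_mod hs, m2]
        exact hz2
    · change (_, _) = _
      rw [m1, m2]

open scoped Classical in
theorem card_mult {F : Type} [Field F] [Fintype F] (P : F[X]) (hP : P.Monic) (a : ℕ) :
    ((Lw F (P.natDegree * (a + 1))).filter (fun x => P ∣ x)).card =
      Fintype.card F ^ (P.natDegree * a) := by
  rw [← card_Lw F (P.natDegree * a),
    ← Finset.card_image_of_injective (Lw F (P.natDegree * a)) (mul_right_injective₀ hP.ne_zero)]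
  congr 1
  ext x
  rw [Finset.mem_filter, Finset.mem_image, mem_Lw]
  constructor
  · rintro ⟨hx, y, rfl⟩
    refine ⟨y, ?_, rfl⟩
    rw [mem_Lw]
    by_cases hy : y = 0
    · rw [hy, Polynomial.degree_zero]
      exact WithBot.bot_lt_coe _
    · rw [← Polynomial.natDegree_lt_iff_degree_lt (mul_ne_zero hP.ne_zero hy),
        Polynomial.natDegree_mul hP.ne_zero hy, Nat.mul_succ] at hx
      rw [← Polynomial.natDegree_lt_iff_degree_lt hy]
      omega
  · rintro ⟨y, hy, rfl⟩
    rw [mem_Lw] at hy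
    refine ⟨?_, dvd_mul_right P y⟩
    by_cases hy0 : y = 0
    · rw [hy0, mul_zero, Polynomial.degree_zero]
      exact WithBot.bot_lt_coe _
    · rw [← Polynomial.natDegree_lt_iff_degree_lt hy0] at hy
      rw [← Polynomial.natDegree_lt_iff_degree_lt (mul_ne_zero hP.ne_zero hy0),
        Polynomial.natDegree_mul hP.ne_zero hy0, Nat.mul_succ]
      omega

theorem phi_prime_pow {F : Type} [Field F] [Fintype F] (P : F[X]) (a : ℕ) (hP : P.Monic)
    (hi : Irreducible P) :
    (phi (P ^ (a + 1)) : ℝ) = qr F ^ (P.natDegree * a) * (qr F ^ P.natDegree - 1) := by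
  classical
  have h1 : phi (P ^ (a + 1)) = ((Lw F (P.natDegree * (a + 1))).filter (fun x => ¬ P ∣ x)).card := by
    unfold phi
    rw [hP.natDegree_pow, mul_comm]
    congr 1
    refine Finset.filter_congr fun x _ => ?_
    rw [IsCoprime.pow_right_iff (Nat.succ_pos a), isCoprime_comm]
    exact hi.coprime_iff_not_dvd
  have h2 := Finset.card_filter_add_card_filter_not (s := Lw F (P.natDegree * (a + 1)))
    (fun x => P ∣ x)
  rw [card_mult P hP a, ← h1, card_Lw] at h2
  have h3 : (qr F) ^ (P.natDegree * a) + (phi (P ^ (a + 1)) : ℝ) =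
      qr F ^ (P.natDegree * (a + 1)) := by
    exact_mod_cast h2
  rw [Nat.mul_succ, pow_add (qr F)] at h3
  linear_combination h3

theorem hPHM : StPHM := by
  intro F _ _
  exact ⟨fun r s hr hs hrs => phi_mul_cop r s hr hs hrs,
    fun P a hP hi => phi_prime_pow P a hP hi⟩

end Pool.Agent.Helper81.FC
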