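import Mathlib

/-!
The Factorial Conjecture for nondegenerate weighted homogeneous polynomials:
the functional, its graded pieces and the integration by parts.
-/

open MvPolynomial

namespace Pool.Agent.Helper81.FC

variable {n : ℕ}

/-- the product of the factorials of the exponents -/
noncomputable def fac (s : Fin n →₀ ℕ) : ℂ := ∏ i, ((s i).factorial : ℂ)

/-- the factorial functional restricted to the monomials `U^s` with `w·s + |w| = N` -/
noncomputable def LN (w : Fin n → ℕ) (N : ℕ) : MvPolynomial (Fin n) ℂ →ₗ[ℂ] ℂ :=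
  (basisMonomials (Fin n) ℂ).constr ℂ
    (fun s => if Finsupp.weight w s + ∑ i, w i = N then fac s else 0)

lemma LN_monomial (w : Fin n → ℕ) (N : ℕ) (s : Fin n →₀ ℕ) (c : ℂ) :
    LN w N (monomial s c) = c * (if Finsupp.weight w s + ∑ i, w i = N then fac s else 0) := by
  have : monomial s c = c • (basisMonomials (Fin n) ℂ) s := by
    rw [coe_basisMonomials, smul_monomial, smul_eq_mul, mul_one]
  rw [this, map_smul, LN, Module.Basis.constr_basis, smul_eq_mul]

/-- the factorial functional -/
noncomputable def LL (P : MvPolynomial (Fin n) ℂ) : ℂ :=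
  ∑ s ∈ P.support, P.coeff s * ∏ i : Fin n, (((s i).factorial : ℕ) : ℂ)

lemma LN_of_homogeneous (w : Fin n → ℕ) (P : MvPolynomial (Fin n) ℂ) (e : ℕ)
    (hP : P.IsWeightedHomogeneous w e) (N : ℕ) :
    LN w N P = if e + ∑ i, w i = N then LL P else 0 := by
  conv_lhs => rw [P.as_sum]
  rw [map_sum]
  have h : ∀ s ∈ P.support, LN w N (monomial s (coeff s P))
      = if e + ∑ i, w i = N then P.coeff s * ∏ i : Fin n, (((s i).factorial : ℕ) : ℂ) else 0 := by
    intro s hs
    rw [LN_monomial, hP (mem_support_iff.1 hs)]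
    split_ifs <;> simp [fac]
  rw [Finset.sum_congr rfl h]
  split_ifs
  · rfl
  · simp

lemma fac_add_single (s : Fin n →₀ ℕ) (i : Fin n) :
    fac (s + Finsupp.single i 1) = ((s i : ℂ) + 1) * fac s := by
  unfold fac
  have h : ∀ j, (((s + Finsupp.single i 1 : Fin n →₀ ℕ) j).factorial : ℂ)
      = (if j = i then ((s i : ℂ) + 1) else 1) * ((s j).factorial : ℂ) := by
    intro j
    by_cases hj : j = i
    · subst hj
      rw [Finsupp.add_apply, Finsupp.single_eq_same, Nat.factorial_succ, if_pos rfl]
      push_cast; ring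
    · rw [Finsupp.add_apply, Finsupp.single_eq_of_ne hj, add_zero, if_neg hj, one_mul]
  rw [Finset.prod_congr rfl fun j _ => h j, Finset.prod_mul_distrib, Finset.prod_ite_eq']
  simp

lemma weight_add_single (w : Fin n → ℕ) (s : Fin n →₀ ℕ) (i : Fin n) :
    Finsupp.weight w (s + Finsupp.single i 1) = Finsupp.weight w s + w i := by
  rw [map_add, Finsupp.weight_single, one_smul]

lemma X_mul_monomial (i : Fin n) (s : Fin n →₀ ℕ) (c : ℂ) :
    (X i : MvPolynomial (Fin n) ℂ) * monomial s c = monomial (s + Finsupp.single i 1) c := by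
  rw [mul_comm, X, monomial_mul, mul_one]

lemma pderiv_X_mul_monomial (i : Fin n) (s : Fin n →₀ ℕ) (c : ℂ) :
    pderiv i ((X i : MvPolynomial (Fin n) ℂ) * monomial s c) = monomial s (c * ((s i : ℂ) + 1)) := by
  rw [X_mul_monomial, pderiv_monomial]
  congr 1
  · ext j; simp
  · simp

/-- integration by parts -/
theorem LN_shift (w : Fin n → ℕ) (i : Fin n) (N : ℕ) (Q : MvPolynomial (Fin n) ℂ) :
    LN w N (pderiv i (X i * Q)) = LN w (N + w i) (X i * Q) := by
  induction Q using MvPolynomial.induction_on' with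
  | monomial s c =>
    rw [pderiv_X_mul_monomial, X_mul_monomial, LN_monomial, LN_monomial, fac_add_single,
      weight_add_single]
    by_cases h : Finsupp.weight w s + ∑ i, w i = N
    · rw [if_pos h, if_pos (by omega)]; ring
    · rw [if_neg h, if_neg (by omega)]; ring
  | add P Q hP hQ =>
    rw [mul_add, map_add, map_add, map_add, hP, hQ]

/-- the Euler identity -/
theorem LN_euler (w : Fin n → ℕ) (N : ℕ) (Q : MvPolynomial (Fin n) ℂ) :
    ∑ i, (w i : ℂ) * LN w (N + w i) (X i * Q) = N * LN w N Q := by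
  have key : ∀ (s : Fin n →₀ ℕ) (c : ℂ),
      ∑ i, (w i : ℂ) * LN w (N + w i) (X i * monomial s c) = N * LN w N (monomial s c) := by
    intro s c
    have h1 : ∀ i, (w i : ℂ) * LN w (N + w i) (X i * monomial s c)
        = ((s i : ℂ) * w i + w i) *
          (c * (if Finsupp.weight w s + ∑ i, w i = N then fac s else 0)) := by
      intro i
      rw [← LN_shift, pderiv_X_mul_monomial, LN_monomial]; ring
    rw [Finset.sum_congr rfl fun i _ => h1 i, ← Finset.sum_mul, LN_monomial,
      Finset.sum_add_distrib]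
    by_cases h : Finsupp.weight w s + ∑ i, w i = N
    · rw [if_pos h]
      congr 1
      rw [← h, Finsupp.weight_eq_sum]
      push_cast [smul_eq_mul]
      ring
    · rw [if_neg h]; ring
  induction Q using MvPolynomial.induction_on' with
  | monomial s c => exact key s c
  | add P Q hP hQ =>
    have h2 : ∀ i, (w i : ℂ) * LN w (N + w i) (X i * (P + Q))
        = (w i : ℂ) * LN w (N + w i) (X i * P)
          + (w i : ℂ) * LN w (N + w i) (X i * Q) := by
      intro i; rw [mul_add, map_add, mul_add]
    rw [Finset.sum_congr rfl fun i _ => h2 i, Finset.sum_add_distrib, hP, hQ, map_add, mul_add]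

lemma LN_vanish (w : Fin n → ℕ) (k : ℕ) (hk : 1 ≤ k) (f : MvPolynomial (Fin n) ℂ)
    (hf : f.IsWeightedHomogeneous w k) (h : MvPolynomial (Fin n) ℂ) (N m : ℕ) (hm : N < m) :
    LN w N (h * f ^ m) = 0 := by
  classical
  rw [(h * f ^ m).as_sum, map_sum]
  refine Finset.sum_eq_zero fun s hs => ?_
  rw [LN_monomial]
  have h1 := MvPolynomial.support_mul h (f ^ m) hs
  obtain ⟨a, _, b, hb, rfl⟩ := Finset.mem_add.1 h1
  have h2 := hf.pow m (mem_support_iff.1 hb)
  rw [if_neg, mul_zero]
  rw [map_add, h2, smul_eq_mul]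
  have : m ≤ m * k := Nat.le_mul_of_pos_right m hk
  omega

end Pool.Agent.Helper81.FC
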