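import Mathlib
import Pool.Agent.Helper81.FC.Basic

/-!
The module of coefficient sequences over `ℂ[τ]`, the transform and its two relations.
-/

open MvPolynomial

namespace Pool.Agent.Helper81.FC

variable {n : ℕ}

/-- coefficient sequences: `G ν` is the coefficient of `τ^(-ν-1)` -/
def Ser : Type := ℕ → ℂ

noncomputable instance : AddCommGroup Ser := inferInstanceAs (AddCommGroup (ℕ → ℂ))

noncomputable instance : Module ℂ Ser := inferInstanceAs (Module ℂ (ℕ → ℂ))

@[simp] lemma Ser.add_apply (F G : Ser) (ν : ℕ) : (F + G) ν = F ν + G ν := rfl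

@[simp] lemma Ser.smul_apply (c : ℂ) (F : Ser) (ν : ℕ) : (c • F) ν = c * F ν := rfl

@[simp] lemma Ser.zero_apply (ν : ℕ) : (0 : Ser) ν = 0 := rfl

@[simp] lemma Ser.neg_apply (F : Ser) (ν : ℕ) : (-F) ν = -F ν := rfl

@[simp] lemma Ser.sub_apply (F G : Ser) (ν : ℕ) : (F - G) ν = F ν - G ν := rfl

@[ext] lemma Ser.ext {F G : Ser} (h : ∀ ν, F ν = G ν) : F = G := funext h

lemma Ser.sum_apply {ι : Type*} (s : Finset ι) (F : ι → Ser) (ν : ℕ) :
    (∑ i ∈ s, F i) ν = ∑ i ∈ s, F i ν := by
  classical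
  induction s using Finset.induction_on with
  | empty => simp
  | insert a s ha ih => rw [Finset.sum_insert ha, Finset.sum_insert ha, Ser.add_apply, ih]

/-- multiplication by `τ` -/
noncomputable def sh : Module.End ℂ Ser where
  toFun G := fun ν => G (ν + 1)
  map_add' _ _ := rfl
  map_smul' _ _ := rfl

@[simp] lemma sh_apply (G : Ser) (ν : ℕ) : sh G ν = G (ν + 1) := rfl

noncomputable instance : Module (Polynomial ℂ) Ser :=
  Module.compHom Ser (Polynomial.aeval sh).toRingHom

lemma smul_def (p : Polynomial ℂ) (G : Ser) : p • G = (Polynomial.aeval sh p) G := rfl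

lemma C_smul (c : ℂ) (G : Ser) : (Polynomial.C c) • G = c • G := by
  rw [smul_def, Polynomial.aeval_C]; rfl

lemma X_smul (G : Ser) : (Polynomial.X : Polynomial ℂ) • G = sh G := by
  rw [smul_def, Polynomial.aeval_X]

lemma X_pow_smul (j : ℕ) (G : Ser) (ν : ℕ) :
    ((Polynomial.X ^ j : Polynomial ℂ) • G) ν = G (ν + j) := by
  induction j generalizing ν with
  | zero => simp
  | succ j ih =>
    rw [pow_succ', mul_smul, X_smul, sh_apply, ih]
    congr 1
    omega

/-- the derivative with respect to `τ` -/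
noncomputable def de : Module.End ℂ Ser where
  toFun G := fun ν => -(ν : ℂ) * G (ν - 1)
  map_add' F G := by ext ν; simp only [Ser.add_apply]; ring
  map_smul' c G := by ext ν; simp only [Ser.smul_apply, RingHom.id_apply]; ring

lemma de_apply (G : Ser) (ν : ℕ) : de G ν = -(ν : ℂ) * G (ν - 1) := rfl

lemma de_sh (G : Ser) : de (sh G) = sh (de G) + G := by
  ext ν
  rw [Ser.add_apply, sh_apply, de_apply, de_apply, sh_apply]
  cases ν with
  | zero => simp
  | succ ν => simp only [Nat.add_sub_cancel]; push_cast; ring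

/-- the Leibniz rule -/
lemma de_smul (p : Polynomial ℂ) (G : Ser) :
    de (p • G) = p • de G + (Polynomial.derivative p) • G := by
  induction p using Polynomial.induction_on' with
  | add p q hp hq =>
    rw [add_smul, map_add, hp, hq, add_smul, Polynomial.derivative_add, add_smul]
    abel
  | monomial j c =>
    rw [← Polynomial.C_mul_X_pow_eq_monomial]
    have key : ∀ j : ℕ, de ((Polynomial.X ^ j : Polynomial ℂ) • G)
        = (Polynomial.X ^ j : Polynomial ℂ) • de G
          + (Polynomial.derivative (Polynomial.X ^ j : Polynomial ℂ)) • G := by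
      intro j
      induction j with
      | zero => simp
      | succ j ih =>
        rw [pow_succ', mul_smul, X_smul, de_sh, ih, map_add, Polynomial.derivative_mul,
          Polynomial.derivative_X, one_mul, add_smul, mul_smul, mul_smul, X_smul, X_smul]
        abel
    rw [mul_smul, C_smul, map_smul, key, Polynomial.derivative_mul, Polynomial.derivative_C,
      zero_mul, zero_add, mul_smul, mul_smul, C_smul, C_smul, smul_add]

/-- the transform -/
noncomputable def Lam (w : Fin n → ℕ) (f : MvPolynomial (Fin n) ℂ) :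
    MvPolynomial (Fin n) ℂ →ₗ[ℂ] Ser where
  toFun h := fun ν => ∑ m ∈ Finset.range (ν + 2), (1 / (m.factorial : ℂ)) * LN w (ν + 1) (h * f ^ m)
  map_add' g h := by
    ext ν
    rw [Ser.add_apply, ← Finset.sum_add_distrib]
    refine Finset.sum_congr rfl fun m _ => ?_
    rw [add_mul, map_add, mul_add]
  map_smul' c h := by
    ext ν
    rw [Ser.smul_apply, Finset.mul_sum]
    refine Finset.sum_congr rfl fun m _ => ?_
    rw [smul_mul_assoc, map_smul, smul_eq_mul, RingHom.id_apply]
    ring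

lemma Lam_apply (w : Fin n → ℕ) (k : ℕ) (hk : 1 ≤ k) (f : MvPolynomial (Fin n) ℂ)
    (hf : f.IsWeightedHomogeneous w k) (h : MvPolynomial (Fin n) ℂ) (ν T : ℕ) (hT : ν + 2 ≤ T) :
    Lam w f h ν = ∑ m ∈ Finset.range T, (1 / (m.factorial : ℂ)) * LN w (ν + 1) (h * f ^ m) := by
  change ∑ m ∈ Finset.range (ν + 2), (1 / (m.factorial : ℂ)) * LN w (ν + 1) (h * f ^ m) = _
  refine Finset.sum_subset (Finset.range_subset_range.2 hT) fun m _ hm => ?_
  rw [Finset.mem_range, not_lt] at hm
  rw [LN_vanish w k hk f hf h (ν + 1) m (by omega), mul_zero]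

/-- the relation coming from the integration by parts -/
theorem Lam_rel (w : Fin n → ℕ) (k : ℕ) (hk : 1 ≤ k) (f : MvPolynomial (Fin n) ℂ)
    (hf : f.IsWeightedHomogeneous w k) (i : Fin n) (P : MvPolynomial (Fin n) ℂ) :
    Lam w f (P * (X i * pderiv i f))
      = (Polynomial.X ^ (w i) : Polynomial ℂ) • Lam w f (X i * P) - Lam w f (pderiv i (X i * P)) := by
  ext ν
  rw [Ser.sub_apply, X_pow_smul, Lam_apply w k hk f hf _ ν (ν + w i + 1 + 1) (by omega),
    Lam_apply w k hk f hf _ (ν + w i) (ν + w i + 1 + 1 + 1) (by omega),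
    Lam_apply w k hk f hf _ ν (ν + w i + 1 + 1 + 1) (by omega)]
  rw [Finset.sum_range_succ' _ (ν + w i + 1 + 1), Finset.sum_range_succ' _ (ν + w i + 1 + 1)]
  have h0 : (1 / ((0 : ℕ).factorial : ℂ)) * LN w (ν + w i + 1) (X i * P * f ^ 0)
      = (1 / ((0 : ℕ).factorial : ℂ)) * LN w (ν + 1) (pderiv i (X i * P) * f ^ 0) := by
    rw [pow_zero, mul_one, mul_one, LN_shift]
    congr 3
    omega
  rw [h0, add_sub_add_right_eq_sub, ← Finset.sum_sub_distrib]
  refine Finset.sum_congr rfl fun m _ => ?_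
  have h1 : pderiv i (X i * (P * f ^ (m + 1)))
      = pderiv i (X i * P) * f ^ (m + 1)
        + C ((m : ℂ) + 1) * (P * (X i * pderiv i f) * f ^ m) := by
    rw [← mul_assoc, Derivation.leibniz, Derivation.leibniz_pow]
    simp only [smul_eq_mul, Nat.add_sub_cancel, nsmul_eq_mul]
    have : (C ((m : ℂ) + 1) : MvPolynomial (Fin n) ℂ) = (m : MvPolynomial (Fin n) ℂ) + 1 := by
      rw [map_add, map_one, map_natCast]
    rw [this]
    push_cast
    ring
  have h2 := LN_shift w i (ν + 1) (P * f ^ (m + 1))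
  rw [h1, map_add, ← smul_eq_C_mul, map_smul, smul_eq_mul] at h2
  have h3 : X i * (P * f ^ (m + 1)) = X i * P * f ^ (m + 1) := by ring
  have h4 : ν + 1 + w i = ν + w i + 1 := by omega
  rw [h3, h4] at h2
  rw [← h2, Nat.factorial_succ]
  have hm : ((m : ℂ) + 1) ≠ 0 := Nat.cast_add_one_ne_zero m
  have hm2 : (m.factorial : ℂ) ≠ 0 := by exact_mod_cast m.factorial_ne_zero
  push_cast
  field_simp
  ring

/-- the derivative of the transform -/
theorem de_Lam (hn : 0 < n) (w : Fin n → ℕ) (hw : ∀ i, 1 ≤ w i) (k : ℕ) (hk : 1 ≤ k)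
    (f : MvPolynomial (Fin n) ℂ)
    (hf : f.IsWeightedHomogeneous w k) (h : MvPolynomial (Fin n) ℂ) :
    de (Lam w f h)
      = - ∑ i, (w i : ℂ) • ((Polynomial.X ^ (w i - 1) : Polynomial ℂ) • Lam w f (X i * h)) := by
  ext ν
  rw [Ser.neg_apply, Ser.sum_apply, de_apply]
  have hW : 1 ≤ ∑ i, w i := by
    calc 1 ≤ w ⟨0, hn⟩ := hw _
      _ ≤ ∑ i, w i := Finset.single_le_sum (f := w) (fun i _ => Nat.zero_le _) (Finset.mem_univ _)
  set W := ∑ i, w i with hWdef
  have hwW : ∀ i, w i ≤ W := fun i =>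
    Finset.single_le_sum (f := w) (fun i _ => Nat.zero_le _) (Finset.mem_univ _)
  have h1 : ∀ i, ((w i : ℂ) • ((Polynomial.X ^ (w i - 1) : Polynomial ℂ) • Lam w f (X i * h))) ν
      = ∑ m ∈ Finset.range (ν + W + 2),
        (1 / (m.factorial : ℂ)) * ((w i : ℂ) * LN w (ν + w i) (X i * (h * f ^ m))) := by
    intro i
    have := hw i
    have := hwW i
    rw [Ser.smul_apply, X_pow_smul, Lam_apply w k hk f hf _ _ (ν + W + 2) (by omega),
      Finset.mul_sum]
    refine Finset.sum_congr rfl fun m _ => ?_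
    have e : ν + (w i - 1) + 1 = ν + w i := by omega
    rw [e, mul_assoc (X i)]
    ring
  rw [Finset.sum_congr rfl fun i _ => h1 i, Finset.sum_comm]
  have h2 : ∀ m, ∑ i, (1 / (m.factorial : ℂ)) * ((w i : ℂ) * LN w (ν + w i) (X i * (h * f ^ m)))
      = (1 / (m.factorial : ℂ)) * (ν * LN w ν (h * f ^ m)) := by
    intro m
    rw [← Finset.mul_sum, LN_euler]
  rw [Finset.sum_congr rfl fun m _ => h2 m]
  cases ν with
  | zero => simp
  | succ ν =>
    rw [Nat.add_sub_cancel, Lam_apply w k hk f hf _ ν (ν + 1 + W + 2) (by omega), neg_mul,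
      Finset.mul_sum]
    congr 1
    refine Finset.sum_congr rfl fun m _ => ?_
    ring

end Pool.Agent.Helper81.FC
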