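import Mathlib
import Pool.Agent.Helper81.FC.Series

/-!
Finite generation over `ℂ[τ]` and the main theorem.
-/

open MvPolynomial

namespace Pool.Agent.Helper81.FC

variable {n : ℕ}

/-- the ideal of the logarithmic derivatives -/
noncomputable def JJ (f : MvPolynomial (Fin n) ℂ) : Ideal (MvPolynomial (Fin n) ℂ) :=
  Ideal.span (Set.range fun i => X i * pderiv i f)

lemma mono_mem (w : Fin n → ℕ) (f : MvPolynomial (Fin n) ℂ)
    (hnd : ∀ x : Fin n → ℂ, (∀ i, x i * eval x (pderiv i f) = 0) → x = 0) :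
    ∃ B, ∀ s : Fin n →₀ ℕ, B < Finsupp.weight w s → monomial s (1 : ℂ) ∈ JJ f := by
  classical
  have h1 : ∀ j, ∃ r : ℕ, (X j : MvPolynomial (Fin n) ℂ) ^ r ∈ JJ f := by
    intro j
    have : (X j : MvPolynomial (Fin n) ℂ) ∈ (JJ f).radical := by
      rw [← vanishingIdeal_zeroLocus_eq_radical (K := ℂ) (JJ f), mem_vanishingIdeal_iff]
      intro x hx
      have hx0 : x = 0 := by
        refine hnd x fun i => ?_
        have := hx (X i * pderiv i f) (Ideal.subset_span ⟨i, rfl⟩)
        rwa [map_mul, aeval_X, aeval_eq_eval] at this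
      rw [aeval_X, hx0]
      rfl
    exact this
  choose r hr using h1
  refine ⟨∑ j, r j * w j, fun s hs => ?_⟩
  obtain ⟨j, hj⟩ : ∃ j, r j ≤ s j := by
    by_contra hcon
    push Not at hcon
    have : Finsupp.weight w s ≤ ∑ j, r j * w j := by
      rw [Finsupp.weight_eq_sum]
      refine Finset.sum_le_sum fun j _ => ?_
      rw [smul_eq_mul]
      exact Nat.mul_le_mul_right _ (hcon j).le
    omega
  have h2 : monomial s (1 : ℂ) = monomial (s - Finsupp.single j (r j)) 1 * X j ^ (r j) := by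
    rw [X_pow_eq_monomial, monomial_mul, mul_one]
    have hle : Finsupp.single j (r j) ≤ s := Finsupp.single_le_iff.2 hj
    rw [tsub_add_cancel_of_le hle]
  rw [h2]
  exact Ideal.mul_mem_left _ _ (hr j)

lemma comp_mul (w : Fin n → ℕ) (k : ℕ) (q : MvPolynomial (Fin n) ℂ)
    (hq : q.IsWeightedHomogeneous w k) (P : MvPolynomial (Fin n) ℂ) (e : ℕ) :
    weightedHomogeneousComponent w (e + k) (P * q) = weightedHomogeneousComponent w e P * q := by
  induction P using MvPolynomial.induction_on' with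
  | monomial s c =>
    have h1 : (monomial s c : MvPolynomial (Fin n) ℂ).IsWeightedHomogeneous w
      (Finsupp.weight w s) := isWeightedHomogeneous_monomial w s c rfl
    rw [weightedHomogeneousComponent_of_mem (n := Finsupp.weight w s + k) (h1.mul hq),
      weightedHomogeneousComponent_of_mem (n := Finsupp.weight w s) h1]
    by_cases h : e = Finsupp.weight w s
    · rw [if_pos (by omega), if_pos h]
    · rw [if_neg (by omega), if_neg h, zero_mul]
  | add P Q hP hQ => rw [add_mul, map_add, map_add, add_mul, hP, hQ]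

lemma pderiv_support {i : Fin n} {P : MvPolynomial (Fin n) ℂ} {s : Fin n →₀ ℕ}
    (hs : s ∈ (pderiv i (X i * P)).support) : s ∈ P.support := by
  classical
  rw [mem_support_iff] at hs ⊢
  contrapose! hs
  have key : ∀ Q : MvPolynomial (Fin n) ℂ,
      coeff s (pderiv i (X i * Q)) = ((s i : ℂ) + 1) * coeff s Q := by
    intro Q
    induction Q using MvPolynomial.induction_on' with
    | monomial t c =>
      rw [pderiv_X_mul_monomial, coeff_monomial, coeff_monomial]
      split_ifs with h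
      · subst h; ring
      · ring
    | add P Q hP hQ => rw [mul_add, map_add, coeff_add, hP, hQ, coeff_add]; ring
  rw [key, hs, mul_zero]

lemma X_mul_support {i : Fin n} {P : MvPolynomial (Fin n) ℂ} {s : Fin n →₀ ℕ}
    (hs : s ∈ (X i * P).support) : ∃ t ∈ P.support, s = t + Finsupp.single i 1 := by
  classical
  rw [support_X_mul] at hs
  obtain ⟨t, ht, rfl⟩ := Finset.mem_map.1 hs
  exact ⟨t, ht, by simp [add_comm]⟩

/-- the `ℂ[τ]`-module generated by all transforms -/
noncomputable def MM (w : Fin n → ℕ) (f : MvPolynomial (Fin n) ℂ) :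
    Submodule (Polynomial ℂ) Ser :=
  Submodule.span (Polynomial ℂ) (Set.range (Lam w f))

lemma Lam_mem_of_support (w : Fin n → ℕ) (f : MvPolynomial (Fin n) ℂ)
    (S : Submodule (Polynomial ℂ) Ser) (P : MvPolynomial (Fin n) ℂ)
    (h : ∀ s ∈ P.support, Lam w f (monomial s 1) ∈ S) : Lam w f P ∈ S := by
  rw [P.as_sum, map_sum]
  refine Submodule.sum_mem _ fun s hs => ?_
  have : monomial s (coeff s P) = (coeff s P) • monomial s (1 : ℂ) := by
    rw [smul_monomial, smul_eq_mul, mul_one]
  rw [this, map_smul, ← C_smul]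
  exact Submodule.smul_mem _ _ (h s hs)

theorem MM_fg (w : Fin n → ℕ) (k : ℕ) (hw : ∀ i, 1 ≤ w i) (hwk : ∀ i, w i < k)
    (hk : 1 ≤ k) (f : MvPolynomial (Fin n) ℂ) (hf : f.IsWeightedHomogeneous w k)
    (hnd : ∀ x : Fin n → ℂ, (∀ i, x i * eval x (pderiv i f) = 0) → x = 0) :
    (MM w f).FG := by
  classical
  obtain ⟨B₀, hB₀⟩ := mono_mem w f hnd
  set B := B₀ + k with hB
  have hfin : {s : Fin n →₀ ℕ | Finsupp.weight w s ≤ B}.Finite :=
    Finsupp.finite_of_nat_weight_le w (fun x => by have := hw x; omega) B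
  set S : Submodule (Polynomial ℂ) Ser := Submodule.span (Polynomial ℂ)
    ((fun s : Fin n →₀ ℕ => Lam w f (monomial s 1)) '' {s | Finsupp.weight w s ≤ B}) with hS
  have hSfg : S.FG := Submodule.fg_span (hfin.image _)
  have hq : ∀ i, (X i * pderiv i f).IsWeightedHomogeneous w k := by
    intro i s hs
    rw [← mem_support_iff] at hs
    obtain ⟨t, ht, rfl⟩ := X_mul_support hs
    rw [weight_add_single]
    have h1 : t + Finsupp.single i 1 ∈ f.support := by
      rw [mem_support_iff] at ht ⊢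
      rw [coeff_pderiv] at ht
      intro h0
      rw [h0] at ht
      simp at ht
    have h2 := hf (mem_support_iff.1 h1)
    rw [weight_add_single] at h2
    exact h2
  have main : ∀ N : ℕ, ∀ s : Fin n →₀ ℕ, Finsupp.weight w s = N →
      Lam w f (monomial s 1) ∈ S := by
    intro N
    induction N using Nat.strong_induction_on with
    | _ N ih =>
      intro s hs
      by_cases hN : N ≤ B
      · exact Submodule.subset_span ⟨s, by rw [Set.mem_ofPred_eq, hs]; exact hN, rfl⟩
      · push Not at hN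
        have h1 := hB₀ s (by omega)
        rw [JJ, Ideal.mem_span_range_iff_exists_fun] at h1
        obtain ⟨c, hc⟩ := h1
        have hsum : monomial s (1 : ℂ) = ∑ i, weightedHomogeneousComponent w (N - k) (c i)
            * (X i * pderiv i f) := by
          have h2 : weightedHomogeneousComponent w (N - k + k) (monomial s (1 : ℂ))
              = monomial s 1 := by
            rw [weightedHomogeneousComponent_of_mem (n := N)
              (isWeightedHomogeneous_monomial w s _ hs), if_pos (by omega)]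
          rw [← h2, ← hc, map_sum]
          exact Finset.sum_congr rfl fun i _ => comp_mul w k _ (hq i) _ _
        rw [hsum, map_sum]
        refine Submodule.sum_mem _ fun i _ => ?_
        rw [Lam_rel w k hk f hf]
        have hP : ∀ t ∈ (weightedHomogeneousComponent w (N - k) (c i)).support,
            Finsupp.weight w t = N - k := fun t ht =>
          weightedHomogeneousComponent_isWeightedHomogeneous (N - k) (c i) (mem_support_iff.1 ht)
        refine Submodule.sub_mem _ (Submodule.smul_mem _ _ ?_) ?_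
        · refine Lam_mem_of_support w f S _ fun t ht => ?_
          obtain ⟨u, hu, rfl⟩ := X_mul_support ht
          have := hwk i
          refine ih (N - k + w i) (by omega) _ ?_
          rw [weight_add_single, hP u hu]
        · refine Lam_mem_of_support w f S _ fun t ht => ?_
          exact ih (N - k) (by omega) _ (hP t (pderiv_support ht))
  have heq : MM w f = S := by
    refine le_antisymm ?_ ?_
    · rw [MM, Submodule.span_le]
      rintro _ ⟨P, rfl⟩
      exact Lam_mem_of_support w f S P fun s _ => main _ s rfl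
    · rw [hS, Submodule.span_le]
      rintro _ ⟨s, _, rfl⟩
      exact Submodule.subset_span ⟨_, rfl⟩
  rw [heq]
  exact hSfg

lemma de_mem (hn : 0 < n) (w : Fin n → ℕ) (hw : ∀ i, 1 ≤ w i) (k : ℕ) (hk : 1 ≤ k)
    (f : MvPolynomial (Fin n) ℂ) (hf : f.IsWeightedHomogeneous w k) (G : Ser)
    (hG : G ∈ MM w f) : de G ∈ MM w f := by
  induction hG using Submodule.span_induction with
  | mem G hG =>
    obtain ⟨P, rfl⟩ := hG
    rw [de_Lam hn w hw k hk f hf]
    refine Submodule.neg_mem _ (Submodule.sum_mem _ fun i _ => ?_)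
    rw [← C_smul]
    exact Submodule.smul_mem _ _ (Submodule.smul_mem _ _ (Submodule.subset_span ⟨_, rfl⟩))
  | zero => rw [map_zero]; exact Submodule.zero_mem _
  | add F G _ _ hF hG => rw [map_add]; exact Submodule.add_mem _ hF hG
  | smul p G hG0 hG =>
    rw [de_smul]
    exact Submodule.add_mem _ (Submodule.smul_mem _ _ hG) (Submodule.smul_mem _ _ hG0)

/-- sequences vanishing from `J` on -/
noncomputable def VV (J : ℕ) : Submodule (Polynomial ℂ) Ser where
  carrier := {G | ∀ ν, J ≤ ν → G ν = 0}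
  zero_mem' := fun _ _ => rfl
  add_mem' := by
    intro F G hF hG ν hν
    rw [Ser.add_apply, hF ν hν, hG ν hν, add_zero]
  smul_mem' := by
    intro p G hG
    induction p using Polynomial.induction_on' with
    | add p q hp hq =>
      intro ν hν
      rw [add_smul, Ser.add_apply, hp ν hν, hq ν hν, add_zero]
    | monomial j c =>
      intro ν hν
      rw [← Polynomial.C_mul_X_pow_eq_monomial, mul_smul, C_smul, Ser.smul_apply, X_pow_smul,
        hG (ν + j) (by omega), mul_zero]

/-- in a finitely generated module stable under the derivative all nonzero elements have infinite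
support -/
theorem infinite_support (M : Submodule (Polynomial ℂ) Ser) (hM : M.FG)
    (hde : ∀ G ∈ M, de G ∈ M) (G : Ser) (hG : G ∈ M) (hG0 : ∃ ν, G ν ≠ 0) (J : ℕ) :
    ∃ ν, J ≤ ν ∧ G ν ≠ 0 := by
  classical
  by_contra hcon
  push Not at hcon
  haveI : IsNoetherian (Polynomial ℂ) M := isNoetherian_of_fg_of_noetherian M hM
  obtain ⟨ν₀, hν₀, hmax⟩ : ∃ ν₀, G ν₀ ≠ 0 ∧ ∀ ν, ν₀ < ν → G ν = 0 := by
    obtain ⟨ν₁, h1⟩ := hG0
    have hlt : ∀ ν, G ν ≠ 0 → ν < J := fun ν hν => by
      by_contra h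
      exact hν (hcon ν (not_lt.1 h))
    refine ⟨Nat.findGreatest (fun ν => G ν ≠ 0) J,
      Nat.findGreatest_spec (P := fun ν => G ν ≠ 0) (hlt ν₁ h1).le h1, fun ν hν => ?_⟩
    by_contra h
    exact absurd h (Nat.findGreatest_is_greatest hν (hlt ν h).le)
  have hstep : ∀ j : ℕ, ∃ F ∈ M, F (ν₀ + j) ≠ 0 ∧ ∀ ν, ν₀ + j < ν → F ν = 0 := by
    intro j
    induction j with
    | zero => exact ⟨G, hG, hν₀, hmax⟩
    | succ j ih =>
      obtain ⟨F, hF, h1, h2⟩ := ih
      refine ⟨de F, hde F hF, ?_, fun ν hν => ?_⟩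
      · rw [de_apply, ← add_assoc, Nat.add_sub_cancel]
        have h3 : ((ν₀ + j + 1 : ℕ) : ℂ) ≠ 0 := by
          exact_mod_cast Nat.succ_ne_zero (ν₀ + j)
        exact mul_ne_zero (neg_ne_zero.2 h3) h1
      · rw [de_apply, h2 (ν - 1) (by omega), mul_zero]
  let g : ℕ →o Submodule (Polynomial ℂ) M :=
    ⟨fun J => (VV J).comap M.subtype, fun a b hab F hF ν hν => hF ν (le_trans hab hν)⟩
  obtain ⟨J₀, hJ₀⟩ := monotone_stabilizes_iff_noetherian.2 inferInstance g
  obtain ⟨F, hF, h1, h2⟩ := hstep J₀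
  have h3 : (⟨F, hF⟩ : M) ∈ g (ν₀ + J₀ + 1) := fun ν hν => h2 ν (by omega)
  have h4 : g (ν₀ + J₀ + 1) = g (ν₀ + J₀) := by
    rw [← hJ₀ (ν₀ + J₀ + 1) (by omega), ← hJ₀ (ν₀ + J₀) (by omega)]
  rw [h4] at h3
  exact h1 (h3 (ν₀ + J₀) le_rfl)

/-- the coefficients of the transform of a weighted homogeneous polynomial -/
lemma Lam_coeff (w : Fin n → ℕ) (k : ℕ) (hk : 1 ≤ k)
    (f : MvPolynomial (Fin n) ℂ) (hf : f.IsWeightedHomogeneous w k) (h : MvPolynomial (Fin n) ℂ)
    (e : ℕ) (hh : h.IsWeightedHomogeneous w e) (ν : ℕ) (hν : Lam w f h ν ≠ 0) :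
    ∃ m, e + m * k + ∑ i, w i = ν + 1 ∧ LL (h * f ^ m) ≠ 0 := by
  by_contra hcon
  push Not at hcon
  apply hν
  rw [Lam_apply w k hk f hf h ν (ν + 2) le_rfl]
  refine Finset.sum_eq_zero fun m _ => ?_
  have h1 : (h * f ^ m).IsWeightedHomogeneous w (e + m * k) := by
    have := hh.mul (hf.pow m)
    rwa [smul_eq_mul] at this
  rw [LN_of_homogeneous w _ _ h1]
  split_ifs with h2
  · rw [hcon m h2, mul_zero]
  · rw [mul_zero]

lemma Lam_coeff' (w : Fin n → ℕ) (k : ℕ) (hk : 1 ≤ k)
    (f : MvPolynomial (Fin n) ℂ) (hf : f.IsWeightedHomogeneous w k) (h : MvPolynomial (Fin n) ℂ)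
    (e : ℕ) (hh : h.IsWeightedHomogeneous w e) (ν m : ℕ) (hm : e + m * k + ∑ i, w i = ν + 1)
    (hL : LL (h * f ^ m) ≠ 0) : Lam w f h ν ≠ 0 := by
  have hmν : m < ν + 2 := by
    have : m ≤ m * k := Nat.le_mul_of_pos_right m hk
    omega
  rw [Lam_apply w k hk f hf h ν (ν + 2) le_rfl, Finset.sum_eq_single m]
  · have h1 : (h * f ^ m).IsWeightedHomogeneous w (e + m * k) := by
      have := hh.mul (hf.pow m)
      rwa [smul_eq_mul] at this
    rw [LN_of_homogeneous w _ _ h1, if_pos hm]
    refine mul_ne_zero ?_ hL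
    rw [one_div]
    exact inv_ne_zero (by exact_mod_cast m.factorial_ne_zero)
  · intro m' _ hne
    have h1 : (h * f ^ m').IsWeightedHomogeneous w (e + m' * k) := by
      have := hh.mul (hf.pow m')
      rwa [smul_eq_mul] at this
    rw [LN_of_homogeneous w _ _ h1, if_neg, mul_zero]
    intro h2
    apply hne
    have h3 : m' * k = m * k := by omega
    exact Nat.eq_of_mul_eq_mul_right hk h3
  · intro h
    exact absurd (Finset.mem_range.2 hmν) h

/-- **Main theorem**: for a weighted homogeneous polynomial `f`, nondegenerate on all coordinate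
strata, and a weighted homogeneous `h`, either `L(h f^m) = 0` for all `m`, or `L(h f^m) ≠ 0` for
infinitely many `m`. -/
theorem main (hn : 0 < n) (w : Fin n → ℕ) (k : ℕ) (hw : ∀ i, 1 ≤ w i) (hwk : ∀ i, w i < k)
    (f : MvPolynomial (Fin n) ℂ) (hf : f.IsWeightedHomogeneous w k)
    (hnd : ∀ x : Fin n → ℂ, (∀ i, x i * eval x (pderiv i f) = 0) → x = 0)
    (h : MvPolynomial (Fin n) ℂ) (e : ℕ) (hh : h.IsWeightedHomogeneous w e)
    (m₀ : ℕ) (h0 : LL (h * f ^ m₀) ≠ 0) (M : ℕ) :
    ∃ m, M ≤ m ∧ LL (h * f ^ m) ≠ 0 := by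
  have hk : 1 ≤ k := by have := hwk ⟨0, hn⟩; omega
  have hW : 1 ≤ ∑ i, w i := by
    calc 1 ≤ w ⟨0, hn⟩ := hw _
      _ ≤ ∑ i, w i := Finset.single_le_sum (f := w) (fun i _ => Nat.zero_le _) (Finset.mem_univ _)
  obtain ⟨ν, hν, h1⟩ := infinite_support (MM w f) (MM_fg w k hw hwk hk f hf hnd)
    (de_mem hn w hw k hk f hf) (Lam w f h) (Submodule.subset_span ⟨h, rfl⟩)
    ⟨e + m₀ * k + ∑ i, w i - 1, Lam_coeff' w k hk f hf h e hh _ m₀ (by omega) h0⟩
    (e + M * k + ∑ i, w i)
  obtain ⟨m, hm, h2⟩ := Lam_coeff w k hk f hf h e hh ν h1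
  refine ⟨m, ?_, h2⟩
  by_contra hlt
  push Not at hlt
  have : m * k ≤ M * k := Nat.mul_le_mul_right k hlt.le
  omega

end Pool.Agent.Helper81.FC
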