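import Mathlib
import Pool.Agent.Helper81.FC.Main

/-!
Bounded gaps, residue classes, arbitrary multipliers.
-/

open MvPolynomial

namespace Pool.Agent.Helper81.FC

variable {n : ℕ}

lemma poly_smul_apply (p : Polynomial ℂ) (G : Ser) (ν : ℕ) :
    (p • G) ν = ∑ i ∈ p.support, p.coeff i * G (ν + i) := by
  conv_lhs => rw [p.as_sum_support, Finset.sum_smul, Ser.sum_apply]
  refine Finset.sum_congr rfl fun i _ => ?_
  rw [← Polynomial.C_mul_X_pow_eq_monomial, mul_smul, C_smul, Ser.smul_apply, X_pow_smul]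

lemma iter_de (G : Ser) (j : ℕ) : ∃ a : ℕ → ℂ, (∀ x, (de^[j] G) x = a x * G (x - j)) ∧
    ∀ ν, a (ν + j) ≠ 0 := by
  induction j with
  | zero => exact ⟨fun _ => 1, fun x => by simp, fun ν => one_ne_zero⟩
  | succ j ih =>
    obtain ⟨a, h1, h2⟩ := ih
    refine ⟨fun x => -(x : ℂ) * a (x - 1), fun x => ?_, fun ν => ?_⟩
    · rw [Function.iterate_succ_apply', de_apply, h1, ← mul_assoc, Nat.sub_sub, Nat.add_comm 1 j]
    · have h3 : ((ν + (j + 1) : ℕ) : ℂ) ≠ 0 := by
        exact_mod_cast Nat.succ_ne_zero (ν + j)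
      exact mul_ne_zero (neg_ne_zero.2 h3) (h2 ν)

/-- in a finitely generated module stable under the derivative every element is determined
backwards by a window of bounded length -/
theorem gap (M : Submodule (Polynomial ℂ) Ser) (hM : M.FG)
    (hde : ∀ G ∈ M, de G ∈ M) (G : Ser) (hG : G ∈ M) :
    ∃ W : ℕ, ∀ ν, (∀ x, ν < x → x ≤ ν + W → G x = 0) → G ν = 0 := by
  classical
  have hN : IsNoetherian (Polynomial ℂ) M := isNoetherian_of_fg_of_noetherian M hM
  have hmem : ∀ j, de^[j] G ∈ M := by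
    intro j
    induction j with
    | zero => exact hG
    | succ j ih => rw [Function.iterate_succ_apply']; exact hde _ ih
  let S : ℕ → Submodule (Polynomial ℂ) Ser := fun J =>
    Submodule.span (Polynomial ℂ) ((fun j => de^[j] G) '' {j | j < J})
  have hSmono : Monotone S := fun a b hab =>
    Submodule.span_mono (Set.image_mono fun j (hj : j < a) => lt_of_lt_of_le hj hab)
  let g : ℕ →o Submodule (Polynomial ℂ) M :=
    ⟨fun J => (S J).comap M.subtype, fun a b hab => Submodule.comap_mono (hSmono hab)⟩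
  obtain ⟨J, hJ⟩ := monotone_stabilizes_iff_noetherian.2 hN g
  have h1 : (⟨de^[J] G, hmem J⟩ : M) ∈ g (J + 1) :=
    Submodule.subset_span ⟨J, Nat.lt_succ_self J, rfl⟩
  rw [← hJ (J + 1) (Nat.le_succ J)] at h1
  have h2 : de^[J] G ∈ S J := h1
  -- the property
  have h3 : ∀ F ∈ S J, ∃ W : ℕ, ∀ ν, (∀ x, ν < x → x ≤ ν + W → G x = 0) → F (ν + J) = 0 := by
    intro F hF
    induction hF using Submodule.span_induction with
    | mem F hF =>
      obtain ⟨j, hj, rfl⟩ := hF
      have hj' : j < J := hj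
      obtain ⟨a, ha, _⟩ := iter_de G j
      refine ⟨J, fun ν hν => ?_⟩
      change (de^[j] G) (ν + J) = 0
      rw [ha, hν (ν + J - j) (by omega) (by omega), mul_zero]
    | zero => exact ⟨0, fun _ _ => rfl⟩
    | add F F' _ _ hF hF' =>
      obtain ⟨W, h⟩ := hF
      obtain ⟨W', h'⟩ := hF'
      refine ⟨max W W', fun ν hν => ?_⟩
      rw [Ser.add_apply, h ν fun x h1 h2 => hν x h1 (h2.trans (by omega)),
        h' ν fun x h1 h2 => hν x h1 (h2.trans (by omega)), add_zero]
    | smul p F hF0 hF =>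
      obtain ⟨W, h⟩ := hF
      refine ⟨W + p.natDegree, fun ν hν => ?_⟩
      rw [poly_smul_apply]
      refine Finset.sum_eq_zero fun i hi => ?_
      have hi' : i ≤ p.natDegree := Polynomial.le_natDegree_of_mem_supp i hi
      have : ν + J + i = ν + i + J := by omega
      rw [this, h (ν + i) fun x h1 h2 => hν x (by omega) (by omega), mul_zero]
  obtain ⟨W, hW⟩ := h3 _ h2
  obtain ⟨a, ha, ha0⟩ := iter_de G J
  refine ⟨W, fun ν hν => ?_⟩
  have h4 := hW ν hν
  rw [ha, Nat.add_sub_cancel] at h4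
  exact (mul_eq_zero.1 h4).resolve_left (ha0 ν)

/-- the part with indices congruent to `c` modulo `q` -/
noncomputable def pr (q c : ℕ) : Module.End ℂ Ser where
  toFun G := fun ν => if ν % q = c then G ν else 0
  map_add' F G := by
    ext ν
    change (if ν % q = c then (F + G) ν else 0) = (if ν % q = c then F ν else 0) + (if ν % q = c then G ν else 0)
    split_ifs <;> simp
  map_smul' a G := by
    ext ν
    change (if ν % q = c then (a • G) ν else 0) = a * (if ν % q = c then G ν else 0)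
    split_ifs <;> simp

lemma pr_apply (q c : ℕ) (G : Ser) (ν : ℕ) : pr q c G ν = if ν % q = c then G ν else 0 := rfl

lemma pr_X_pow (q c i : ℕ) (hq : 0 < q) (hc : c < q) (G : Ser) :
    pr q c ((Polynomial.X ^ i : Polynomial ℂ) • G)
      = (Polynomial.X ^ i : Polynomial ℂ) • pr q ((c + i) % q) G := by
  ext ν
  rw [pr_apply, X_pow_smul, X_pow_smul, pr_apply]
  have : ν % q = c ↔ (ν + i) % q = (c + i) % q := by
    constructor
    · intro h
      rw [← h, Nat.mod_add_mod]
    · intro h
      have h1 : ν + i ≡ c + i [MOD q] := h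
      have h2 : ν ≡ c [MOD q] := Nat.ModEq.add_right_cancel' i h1
      have h3 : ν % q = c % q := h2
      rwa [Nat.mod_eq_of_lt hc] at h3
  by_cases h : ν % q = c
  · rw [if_pos h, if_pos (this.1 h)]
  · rw [if_neg h, if_neg fun h' => h (this.2 h')]

lemma de_pr (q c : ℕ) (hq : 0 < q) (hc : c < q) (G : Ser) :
    de (pr q c G) = pr q ((c + 1) % q) (de G) := by
  ext ν
  rw [pr_apply, de_apply, de_apply, pr_apply]
  cases ν with
  | zero => simp
  | succ ν =>
    rw [Nat.add_sub_cancel]
    have : ν % q = c ↔ (ν + 1) % q = (c + 1) % q := by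
      constructor
      · intro h
        rw [← h, Nat.mod_add_mod]
      · intro h
        have h1 : ν + 1 ≡ c + 1 [MOD q] := h
        have h2 : ν ≡ c [MOD q] := Nat.ModEq.add_right_cancel' 1 h1
        have h3 : ν % q = c % q := h2
        rwa [Nat.mod_eq_of_lt hc] at h3
    by_cases h : ν % q = c
    · rw [if_pos h, if_pos (this.1 h)]
    · rw [if_neg h, if_neg fun h' => h (this.2 h'), mul_zero]

/-- the module generated by all parts -/
noncomputable def MQ (q : ℕ) (M : Submodule (Polynomial ℂ) Ser) :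
    Submodule (Polynomial ℂ) Ser :=
  Submodule.span (Polynomial ℂ) {F | ∃ c < q, ∃ G ∈ M, F = pr q c G}

lemma MQ_fg (q : ℕ) (hq : 0 < q) (M : Submodule (Polynomial ℂ) Ser) (hM : M.FG) :
    (MQ q M).FG := by
  classical
  obtain ⟨T, hT⟩ := hM
  have hfin : {F : Ser | ∃ c < q, ∃ G ∈ T, F = pr q c G}.Finite := by
    have : {F : Ser | ∃ c < q, ∃ G ∈ T, F = pr q c G}
        ⊆ (((Finset.range q) ×ˢ T).image fun x => pr q x.1 x.2 : Finset Ser) := by
      rintro F ⟨c, hc, G, hG, rfl⟩
      rw [Finset.mem_coe, Finset.mem_image]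
      exact ⟨(c, G), Finset.mem_product.2 ⟨Finset.mem_range.2 hc, hG⟩, rfl⟩
    exact Set.Finite.subset (Finset.finite_toSet _) this
  set S : Submodule (Polynomial ℂ) Ser :=
    Submodule.span (Polynomial ℂ) {F : Ser | ∃ c < q, ∃ G ∈ T, F = pr q c G} with hS
  have h1 : ∀ G ∈ M, ∀ c < q, pr q c G ∈ S := by
    intro G hG
    rw [← hT] at hG
    induction hG using Submodule.span_induction with
    | mem G hG => exact fun c hc => Submodule.subset_span ⟨c, hc, G, hG, rfl⟩
    | zero => intro c _; rw [map_zero]; exact Submodule.zero_mem _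
    | add F G _ _ hF hG => intro c hc; rw [map_add]; exact Submodule.add_mem _ (hF c hc) (hG c hc)
    | smul p G _ hG =>
      intro c hc
      induction p using Polynomial.induction_on' with
      | add p p' hp hp' => rw [add_smul, map_add]; exact Submodule.add_mem _ hp hp'
      | monomial i a =>
        rw [← Polynomial.C_mul_X_pow_eq_monomial, mul_smul, C_smul, map_smul, pr_X_pow q c i hq hc,
          ← C_smul]
        exact Submodule.smul_mem _ _ (Submodule.smul_mem _ _ (hG _ (Nat.mod_lt _ hq)))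
  have h2 : MQ q M = S := by
    refine le_antisymm ?_ ?_
    · rw [MQ, Submodule.span_le]
      rintro _ ⟨c, hc, G, hG, rfl⟩
      exact h1 G hG c hc
    · rw [hS, Submodule.span_le]
      rintro _ ⟨c, hc, G, hG, rfl⟩
      exact Submodule.subset_span ⟨c, hc, G, hT ▸ Submodule.subset_span hG, rfl⟩
  rw [h2]
  exact Submodule.fg_span hfin

lemma MQ_de (q : ℕ) (hq : 0 < q) (M : Submodule (Polynomial ℂ) Ser)
    (hde : ∀ G ∈ M, de G ∈ M) (F : Ser) (hF : F ∈ MQ q M) : de F ∈ MQ q M := by
  induction hF using Submodule.span_induction with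
  | mem F hF =>
    obtain ⟨c, hc, G, hG, rfl⟩ := hF
    rw [de_pr q c hq hc]
    exact Submodule.subset_span ⟨_, Nat.mod_lt _ hq, _, hde G hG, rfl⟩
  | zero => rw [map_zero]; exact Submodule.zero_mem _
  | add F G _ _ hF hG => rw [map_add]; exact Submodule.add_mem _ hF hG
  | smul p G hG0 hG =>
    rw [de_smul]
    exact Submodule.add_mem _ (Submodule.smul_mem _ _ hG) (Submodule.smul_mem _ _ hG0)

/-- the factorial functional as a linear map -/
noncomputable def Lf : MvPolynomial (Fin n) ℂ →ₗ[ℂ] ℂ :=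
  (basisMonomials (Fin n) ℂ).constr ℂ (fun s => fac s)

lemma LL_eq (P : MvPolynomial (Fin n) ℂ) : LL P = Lf P := by
  conv_rhs => rw [P.as_sum, map_sum]
  unfold LL
  refine Finset.sum_congr rfl fun s _ => ?_
  have : monomial s (coeff s P) = (coeff s P) • (basisMonomials (Fin n) ℂ) s := by
    rw [coe_basisMonomials, smul_monomial, smul_eq_mul, mul_one]
  rw [this, map_smul, Lf, Module.Basis.constr_basis, smul_eq_mul, fac]

/-- the sequence `L(h f^m)/m!` placed at the indices `m k + |w| - 1` -/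
noncomputable def HH (w : Fin n → ℕ) (f h : MvPolynomial (Fin n) ℂ) : Ser :=
  ∑ s ∈ h.support, (Polynomial.X ^ (Finsupp.weight w s) : Polynomial ℂ) •
    Lam w f (monomial s (coeff s h))

lemma HH_mem (w : Fin n → ℕ) (f h : MvPolynomial (Fin n) ℂ) : HH w f h ∈ MM w f :=
  Submodule.sum_mem _ fun _ _ => Submodule.smul_mem _ _ (Submodule.subset_span ⟨_, rfl⟩)

lemma Lam_mono_apply (w : Fin n → ℕ) (k : ℕ) (hk : 1 ≤ k)
    (f : MvPolynomial (Fin n) ℂ) (hf : f.IsWeightedHomogeneous w k) (s : Fin n →₀ ℕ) (c : ℂ)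
    (ν : ℕ) :
    Lam w f (monomial s c) (ν + Finsupp.weight w s)
      = ∑ m ∈ Finset.range (ν + 2), if m * k + ∑ i, w i = ν + 1 then
          (1 / (m.factorial : ℂ)) * Lf (monomial s c * f ^ m) else 0 := by
  have hh : (monomial s c : MvPolynomial (Fin n) ℂ).IsWeightedHomogeneous w
    (Finsupp.weight w s) := isWeightedHomogeneous_monomial w s c rfl
  rw [Lam_apply w k hk f hf _ _ (ν + Finsupp.weight w s + 2) le_rfl]
  have h1 : ∀ m, (1 / (m.factorial : ℂ)) *
      LN w (ν + Finsupp.weight w s + 1) (monomial s c * f ^ m)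
      = if m * k + ∑ i, w i = ν + 1 then
          (1 / (m.factorial : ℂ)) * Lf (monomial s c * f ^ m) else 0 := by
    intro m
    have h1 : (monomial s c * f ^ m).IsWeightedHomogeneous w (Finsupp.weight w s + m * k) := by
      have := hh.mul (hf.pow m)
      rwa [smul_eq_mul] at this
    rw [LN_of_homogeneous w _ _ h1, LL_eq]
    by_cases h : m * k + ∑ i, w i = ν + 1
    · rw [if_pos h, if_pos (by omega)]
    · rw [if_neg h, if_neg (by omega), mul_zero]
  rw [Finset.sum_congr rfl fun m _ => h1 m]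
  symm
  refine Finset.sum_subset (Finset.range_subset_range.2 (by omega)) fun m _ hm => ?_
  rw [Finset.mem_range, not_lt] at hm
  have : m ≤ m * k := Nat.le_mul_of_pos_right m hk
  rw [if_neg (by omega)]

lemma HH_apply (w : Fin n → ℕ) (k : ℕ) (hk : 1 ≤ k)
    (f : MvPolynomial (Fin n) ℂ) (hf : f.IsWeightedHomogeneous w k) (h : MvPolynomial (Fin n) ℂ)
    (ν : ℕ) :
    HH w f h ν = ∑ m ∈ Finset.range (ν + 2), if m * k + ∑ i, w i = ν + 1 then
          (1 / (m.factorial : ℂ)) * Lf (h * f ^ m) else 0 := by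
  unfold HH
  rw [Ser.sum_apply]
  have h1 : ∀ s ∈ h.support, ((Polynomial.X ^ (Finsupp.weight w s) : Polynomial ℂ) •
      Lam w f (monomial s (coeff s h))) ν
      = ∑ m ∈ Finset.range (ν + 2), if m * k + ∑ i, w i = ν + 1 then
          (1 / (m.factorial : ℂ)) * Lf (monomial s (coeff s h) * f ^ m) else 0 := by
    intro s _
    rw [X_pow_smul, Lam_mono_apply w k hk f hf]
  rw [Finset.sum_congr rfl h1, Finset.sum_comm]
  refine Finset.sum_congr rfl fun m _ => ?_
  split_ifs with h2
  · rw [← Finset.mul_sum, ← map_sum, ← Finset.sum_mul, ← h.as_sum]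
  · simp

lemma HH_apply_eq (w : Fin n → ℕ) (k : ℕ) (hk : 1 ≤ k)
    (f : MvPolynomial (Fin n) ℂ) (hf : f.IsWeightedHomogeneous w k) (h : MvPolynomial (Fin n) ℂ)
    (ν m : ℕ) (hm : m * k + ∑ i, w i = ν + 1) :
    HH w f h ν = (1 / (m.factorial : ℂ)) * Lf (h * f ^ m) := by
  rw [HH_apply w k hk f hf, Finset.sum_eq_single m]
  · rw [if_pos hm]
  · intro m' _ hne
    rw [if_neg]
    intro h2
    apply hne
    have h3 : m' * k = m * k := by omega
    exact Nat.eq_of_mul_eq_mul_right hk h3
  · intro h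
    exfalso
    apply h
    rw [Finset.mem_range]
    have : m ≤ m * k := Nat.le_mul_of_pos_right m hk
    omega

lemma HH_apply_ne (w : Fin n → ℕ) (k : ℕ) (hk : 1 ≤ k)
    (f : MvPolynomial (Fin n) ℂ) (hf : f.IsWeightedHomogeneous w k) (h : MvPolynomial (Fin n) ℂ)
    (ν : ℕ) (hν : HH w f h ν ≠ 0) : ∃ m, m * k + ∑ i, w i = ν + 1 := by
  by_contra hcon
  push Not at hcon
  apply hν
  rw [HH_apply w k hk f hf]
  exact Finset.sum_eq_zero fun m _ => by rw [if_neg (hcon m)]

/-- **Main theorem** -/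
theorem main_gap (hn : 0 < n) (w : Fin n → ℕ) (k : ℕ) (hw : ∀ i, 1 ≤ w i) (hwk : ∀ i, w i < k)
    (f : MvPolynomial (Fin n) ℂ) (hf : f.IsWeightedHomogeneous w k)
    (hnd : ∀ x : Fin n → ℂ, (∀ i, x i * eval x (pderiv i f) = 0) → x = 0)
    (h : MvPolynomial (Fin n) ℂ) (r : ℕ) (hr : 1 ≤ r) :
    ∃ D : ℕ, ∀ m₀ M : ℕ, m₀ ≤ M → LL (h * f ^ m₀) ≠ 0 →
      ∃ m, M < m ∧ m ≤ M + D ∧ m ≡ m₀ [MOD r] ∧ LL (h * f ^ m) ≠ 0 := by
  classical
  have hk : 1 ≤ k := by have := hwk ⟨0, hn⟩; omega
  have hW : 1 ≤ ∑ i, w i := by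
    calc 1 ≤ w ⟨0, hn⟩ := hw _
      _ ≤ ∑ i, w i := Finset.single_le_sum (f := w) (fun i _ => Nat.zero_le _) (Finset.mem_univ _)
  set W := ∑ i, w i with hWdef
  set q := k * r with hqdef
  have hq : 0 < q := Nat.mul_pos hk hr
  have hfg := MQ_fg q hq (MM w f) (MM_fg w k hw hwk hk f hf hnd)
  have hde := MQ_de q hq (MM w f) (de_mem hn w hw k hk f hf)
  -- a window for every residue
  have hwin : ∀ c : ℕ, ∃ V : ℕ, c < q → ∀ ν,
      (∀ x, ν < x → x ≤ ν + V → pr q c (HH w f h) x = 0) → pr q c (HH w f h) ν = 0 := by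
    intro c
    by_cases hc : c < q
    · obtain ⟨V, hV⟩ := gap (MQ q (MM w f)) hfg hde (pr q c (HH w f h))
        (Submodule.subset_span ⟨c, hc, _, HH_mem w f h, rfl⟩)
      exact ⟨V, fun _ => hV⟩
    · exact ⟨0, fun h => absurd h hc⟩
  choose V hV using hwin
  refine ⟨∑ c ∈ Finset.range q, V c, fun m₀ M hM h0 => ?_⟩
  set ν₀ := m₀ * k + W - 1 with hν₀
  set c := ν₀ % q with hcdef
  have hcq : c < q := Nat.mod_lt _ hq
  have hVc : V c ≤ ∑ c ∈ Finset.range q, V c :=
    Finset.single_le_sum (f := V) (fun i _ => Nat.zero_le _) (Finset.mem_range.2 hcq)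
  by_contra hcon
  push Not at hcon
  -- all values above `M` in the window vanish
  have hzero : ∀ x, M * k + W - 1 < x → x ≤ M * k + W - 1 + V c → pr q c (HH w f h) x = 0 := by
    intro x h1 h2
    rw [pr_apply]
    split_ifs with h3
    · by_contra h4
      obtain ⟨m, hm⟩ := HH_apply_ne w k hk f hf h x h4
      rw [HH_apply_eq w k hk f hf h x m hm, ← LL_eq] at h4
      have h5 : LL (h * f ^ m) ≠ 0 := right_ne_zero_of_mul h4
      have h6 : M < m := by
        by_contra h7
        push Not at h7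
        have : m * k ≤ M * k := Nat.mul_le_mul_right k h7
        omega
      have h8 : m ≤ M + ∑ c ∈ Finset.range q, V c := by
        by_contra h9
        push Not at h9
        have h10 : (M + V c + 1) * k ≤ m * k := Nat.mul_le_mul_right k (by omega)
        have h11 : (M + V c + 1) * k = M * k + V c * k + k := by ring
        have h12 : V c ≤ V c * k := Nat.le_mul_of_pos_right _ hk
        omega
      have h13 : m ≡ m₀ [MOD r] := by
        have h14 : x ≡ ν₀ [MOD q] := h3
        have h15 : x + 1 ≡ ν₀ + 1 [MOD q] := h14.add_right 1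
        have h16 : ν₀ + 1 = m₀ * k + W := by omega
        rw [h16, ← hm] at h15
        have h17 : m * k ≡ m₀ * k [MOD q] := Nat.ModEq.add_right_cancel' W h15
        have h18 : k * m ≡ k * m₀ [MOD k * r] := by
          rw [mul_comm k m, mul_comm k m₀]
          exact h17
        exact Nat.ModEq.mul_left_cancel' (by omega) h18
      exact h5 (hcon m h6 h8 h13)
    · rfl
  -- downward induction
  have hdown : ∀ j : ℕ, ∀ x, M * k + W - 1 - j < x → x ≤ M * k + W - 1 + V c →
      pr q c (HH w f h) x = 0 := by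
    intro j
    induction j with
    | zero => intro x h1 h2; exact hzero x (by omega) h2
    | succ j ih =>
      intro x h1 h2
      by_cases h3 : M * k + W - 1 - j < x
      · exact ih x h3 h2
      · have h4 : x = M * k + W - 1 - j := by omega
        refine hV c hcq x fun y h5 h6 => ih y (by omega) (by omega)
  have hfin : pr q c (HH w f h) ν₀ = 0 := by
    have h1 : m₀ * k ≤ M * k := Nat.mul_le_mul_right k hM
    by_cases h2 : ν₀ = 0
    · refine hV c hcq ν₀ fun y h5 h6 => ?_
      refine hdown (M * k + W - 1) y (by omega) (by omega)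
    · exact hdown (M * k + W - 1) ν₀ (by omega) (by omega)
  rw [pr_apply, if_pos rfl, HH_apply_eq w k hk f hf h ν₀ m₀ (by omega), ← LL_eq] at hfin
  refine h0 ((mul_eq_zero.1 hfin).resolve_left ?_)
  rw [one_div]
  exact inv_ne_zero (by exact_mod_cast m₀.factorial_ne_zero)

end Pool.Agent.Helper81.FC
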