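import Pool.Agent.Helper15.FC.St3

set_option autoImplicit false

/-!
# Project FC, module MOB: Moebius function sums over divisors
-/

open Polynomial

namespace Pool.Agent.Helper81.FC

open Pool.Agent.Helper15.FC

theorem mob_one' {F : Type} [Field F] : mob (1 : F[X]) = 1 := by
  classical
  unfold mob
  rw [if_pos squarefree_one, UniqueFactorizationMonoid.normalizedFactors_one]
  simp

theorem mob_mul_irr {F : Type} [Field F] {P e : F[X]} (hP : Irreducible P) (he : e ≠ 0)
    (hs : Squarefree (P * e)) : mob (P * e) = - mob e := by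
  classical
  unfold mob
  rw [if_pos hs, if_pos (hs.squarefree_of_dvd (dvd_mul_left e P)),
    UniqueFactorizationMonoid.normalizedFactors_mul hP.ne_zero he,
    UniqueFactorizationMonoid.normalizedFactors_irreducible hP,
    Multiset.card_add, Multiset.card_singleton, pow_add, pow_one]
  ring

theorem mob_nsq {F : Type} [Field F] {f : F[X]} (hs : ¬ Squarefree f) : mob f = 0 := by
  unfold mob
  rw [if_neg hs]

theorem exists_monic_irr {F : Type} [Field F] {f : F[X]} (hf : f.Monic) (h1 : f ≠ 1) :
    ∃ P : F[X], P.Monic ∧ Irreducible P ∧ P ∣ f := by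
  classical
  have hnu : ¬ IsUnit f := fun h => h1 (hf.eq_one_of_isUnit h)
  obtain ⟨P, hP1, hP2⟩ := WfDvdMonoid.exists_irreducible_factor hnu hf.ne_zero
  refine ⟨normalize P, Polynomial.monic_normalize hP1.ne_zero, ?_, ?_⟩
  · exact (associated_normalize P).irreducible hP1
  · exact (associated_normalize P).symm.dvd.trans hP2

theorem hMOB : StMOB := by
  classical
  intro F _ _
  constructor
  · have h : Dv (1 : F[X]) = {1} := by
      ext d
      rw [mem_Dv one_ne_zero, Finset.mem_singleton]
      constructor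
      · rintro ⟨h1, h2⟩
        exact h1.eq_one_of_isUnit (isUnit_of_dvd_one h2)
      · rintro rfl
        exact ⟨Polynomial.monic_one, dvd_refl 1⟩
    rw [h, Finset.sum_singleton, mob_one']
  · intro f hf hf1
    obtain ⟨P, hPm, hPi, hPf⟩ := exists_monic_irr hf hf1
    have hPp : Prime P := hPi.prime
    have hsub : ∑ d ∈ Dv f, mob d = ∑ d ∈ (Dv f).filter Squarefree, mob d := by
      rw [Finset.sum_filter]
      refine Finset.sum_congr rfl fun d _ => ?_
      by_cases hd : Squarefree d
      · rw [if_pos hd]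
      · rw [if_neg hd, mob_nsq hd]
    rw [hsub]
    -- facts about the elements
    have hmem : ∀ d, d ∈ (Dv f).filter Squarefree ↔ (d.Monic ∧ d ∣ f) ∧ Squarefree d := by
      intro d
      rw [Finset.mem_filter, mem_Dv hf.ne_zero]
    -- the case P does not divide d
    have hup : ∀ d : F[X], d.Monic → d ∣ f → Squarefree d → ¬ P ∣ d →
        (P * d).Monic ∧ P * d ∣ f ∧ Squarefree (P * d) := by
      intro d hdm hdf hds hPd
      have hcop : IsCoprime P d := (hPi.coprime_iff_not_dvd).2 hPd
      refine ⟨hPm.mul hdm, hcop.mul_dvd hPf hdf, ?_⟩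
      rw [squarefree_mul_iff]
      exact ⟨hcop.isRelPrime, hPi.squarefree, hds⟩
    -- the case P divides d
    have hdown : ∀ d : F[X], d.Monic → d ∣ f → Squarefree d → P ∣ d →
        ∃ e : F[X], d = P * e ∧ d / P = e ∧ e.Monic ∧ e ∣ f ∧ Squarefree e ∧ ¬ P ∣ e := by
      intro d hdm hdf hds hPd
      obtain ⟨e, rfl⟩ := hPd
      refine ⟨e, rfl, ?_, ?_, ?_, ?_, ?_⟩
      · exact mul_div_cancel_left₀ e hPm.ne_zero
      · exact hPm.of_mul_monic_left hdm
      · exact (dvd_mul_left e P).trans hdf
      · exact hds.squarefree_of_dvd (dvd_mul_left e P)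
      · intro h
        exact hPi.not_isUnit (hds P (mul_dvd_mul_left P h))
    refine Finset.sum_involution (fun d _ => if P ∣ d then d / P else P * d) ?_ ?_ ?_ ?_
    · intro d hd
      obtain ⟨⟨hdm, hdf⟩, hds⟩ := (hmem d).1 hd
      by_cases hPd : P ∣ d
      · obtain ⟨e, h1, h2, h3, h4, h5, h6⟩ := hdown d hdm hdf hds hPd
        simp only [if_pos hPd]
        rw [h2, h1, mob_mul_irr hPi h3.ne_zero (h1 ▸ hds)]
        ring
      · simp only [if_neg hPd]
        rw [mob_mul_irr hPi hdm.ne_zero (hup d hdm hdf hds hPd).2.2]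
        ring
    · intro d hd _
      obtain ⟨⟨hdm, hdf⟩, hds⟩ := (hmem d).1 hd
      have hP1 : 0 < P.natDegree := hPi.natDegree_pos
      by_cases hPd : P ∣ d
      · obtain ⟨e, h1, h2, h3, h4, h5, h6⟩ := hdown d hdm hdf hds hPd
        simp only [if_pos hPd]
        rw [h2]
        intro h
        have h7 : (P * e).natDegree = P.natDegree + e.natDegree :=
          Polynomial.natDegree_mul hPm.ne_zero h3.ne_zero
        rw [← h1, ← h] at h7
        omega
      · simp only [if_neg hPd]
        intro h
        have h7 : (P * d).natDegree = P.natDegree + d.natDegree :=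
          Polynomial.natDegree_mul hPm.ne_zero hdm.ne_zero
        rw [h] at h7
        omega
    · intro d hd
      obtain ⟨⟨hdm, hdf⟩, hds⟩ := (hmem d).1 hd
      by_cases hPd : P ∣ d
      · obtain ⟨e, h1, h2, h3, h4, h5, h6⟩ := hdown d hdm hdf hds hPd
        simp only [if_pos hPd]
        rw [h2]
        exact (hmem e).2 ⟨⟨h3, h4⟩, h5⟩
      · simp only [if_neg hPd]
        obtain ⟨h1, h2, h3⟩ := hup d hdm hdf hds hPd
        exact (hmem _).2 ⟨⟨h1, h2⟩, h3⟩
    · intro d hd
      obtain ⟨⟨hdm, hdf⟩, hds⟩ := (hmem d).1 hd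
      by_cases hPd : P ∣ d
      · obtain ⟨e, h1, h2, h3, h4, h5, h6⟩ := hdown d hdm hdf hds hPd
        simp only [if_pos hPd]
        rw [h2, if_neg h6, ← h1]
      · simp only [if_neg hPd]
        rw [if_pos (dvd_mul_right P d)]
        exact mul_div_cancel_left₀ d hPm.ne_zero

end Pool.Agent.Helper81.FC
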